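import Pool.Agent.Y524S.Odd
import Pool.Agent.H834R2.Flow

/-! A closed smooth four-manifold without circle actions, but with free smooth cyclic actions of
every odd order and with nontrivial smooth cyclic actions of every prime order. -/

set_option autoImplicit false

open Set Filter Topology
open scoped Topology ContDiff Real Manifold

namespace Pool.Agent.Results.MP_3f8e0b_gt.AllPrimes

open Pool.Agent.H834R2 Pool.Agent.Y524S

lemma secondCountable_X : SecondCountableTopology X :=
  TopologicalSpace.IsTopologicalBasis.secondCountableTopology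
    ((TopologicalSpace.isBasis_countableBasis S).isQuotientMap pr_cov.toIsQuotientMap hl.isOpenMap)
    ((TopologicalSpace.countable_countableBasis S).image _)

/-- every smooth circle action gives a flow of period one -/
lemma isFlow_of_action (A : MulAction Circle X)
    (hA : ContMDiff ((𝓡 1).prod (𝓡 4)) (𝓡 4) ∞ (fun z : Circle × X => z.1 • z.2)) :
    IsFlow (fun t x => Circle.exp (2 * π * t) • x) where
  smooth := by
    have h1 : ContMDiff 𝓘(ℝ, ℝ) (𝓡 1) ∞ (fun t : ℝ => Circle.exp (2 * π * t)) := by
      have h2 : ContDiff ℝ ∞ (fun t : ℝ => 2 * π * t) := contDiff_const.mul contDiff_id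
      exact contMDiff_circleExp.comp h2.contMDiff
    have h3 : ContMDiff (𝓘(ℝ, ℝ).prod (𝓡 4)) ((𝓡 1).prod (𝓡 4)) ∞
        (fun z : ℝ × X => (Circle.exp (2 * π * z.1), z.2)) :=
      (h1.comp contMDiff_fst).prodMk contMDiff_snd
    exact hA.comp h3
  zero x := by
    show Circle.exp (2 * π * 0) • x = x
    rw [mul_zero, Circle.exp_zero, one_smul]
  add s t x := by
    show Circle.exp (2 * π * (s + t)) • x = Circle.exp (2 * π * s) • Circle.exp (2 * π * t) • x
    rw [mul_add, Circle.exp_add, mul_smul]
  one x := by
    show Circle.exp (2 * π * 1) • x = x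
    rw [mul_one, Circle.exp_two_pi, one_smul]

/-- There is a closed connected smooth four-manifold on which every smooth circle action is
trivial, but which carries a free smooth action of the cyclic group of order `m` for every odd
`m`, and a nontrivial smooth action of the cyclic group of order `p` for every prime `p`. -/
theorem result :
    ∃ (X : Type) (_ : TopologicalSpace X) (_ : ChartedSpace (EuclideanSpace ℝ (Fin 4)) X),
      IsManifold (𝓡 4) ∞ X ∧ CompactSpace X ∧ T2Space X ∧ SecondCountableTopology X ∧
      ConnectedSpace X ∧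
      (∀ _ : MulAction Circle X,
        ContMDiff ((𝓡 1).prod (𝓡 4)) (𝓡 4) ∞ (fun z : Circle × X => z.1 • z.2) →
          ∀ (z : Circle) (x : X), z • x = x) ∧
      (∀ m : ℕ, m % 2 = 1 →
        ∃ _ : MulAction (Multiplicative (ZMod m)) X,
          (∀ g : Multiplicative (ZMod m), ContMDiff (𝓡 4) (𝓡 4) ∞ (fun x : X => g • x)) ∧
          ∀ g : Multiplicative (ZMod m), g ≠ 1 → ∀ x : X, g • x ≠ x) ∧
      (∀ p : ℕ, p.Prime →
        ∃ _ : MulAction (Multiplicative (ZMod p)) X,
          (∀ g : Multiplicative (ZMod p), ContMDiff (𝓡 4) (𝓡 4) ∞ (fun x : X => g • x)) ∧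
          ∃ (g : Multiplicative (ZMod p)) (x : X), g • x ≠ x) := by
  refine ⟨X, inferInstance, inferInstance, inferInstance, inferInstance, inferInstance,
    secondCountable_X, inferInstance, ?_, exists_free_odd, ?_⟩
  · intro A hA z x
    obtain ⟨t, ht⟩ : ∃ t : ℝ, Circle.exp t = z := Circle.exp_surjective z
    have h1 := flow_trivial (isFlow_of_action A hA) (t / (2 * π)) x
    have h2 : 2 * π * (t / (2 * π)) = t := by
      have := Real.pi_pos.ne'
      field_simp
    beta_reduce at h1
    rw [h2, ht] at h1
    exact h1
  · intro p hp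
    rcases hp.eq_two_or_odd with rfl | hodd
    · exact exists_involution
    · obtain ⟨A, h1, h2⟩ := exists_free_odd p hodd
      refine ⟨A, h1, Multiplicative.ofAdd 1, pr ⟨mp, mp_mem⟩, h2 _ ?_ _⟩
      intro h
      have h3 : (1 : ZMod p) = 0 := h
      have : Fact (1 < p) := ⟨hp.one_lt⟩
      exact one_ne_zero h3

end Pool.Agent.Results.MP_3f8e0b_gt.AllPrimes
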